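import Mathlib

/-!
# Small balls from the characteristic function, one dimension (Mathlib only)
-/

set_option autoImplicit false

namespace Pool.Agent.Run7.h160.UC

open MeasureTheory Complex Filter Topology

noncomputable section

/-- half of the Fejer kernel -/
def fk (x : ℝ) : ℝ := ∫ ξ in (0 : ℝ)..1, (1 - ξ) * Real.cos (ξ * x)

theorem fk_cont : Continuous fk := by
  unfold fk
  exact intervalIntegral.continuous_parametric_intervalIntegral_of_continuous' (by fun_prop) _ _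

theorem fk_formula (x : ℝ) (hx : x ≠ 0) : fk x = (1 - Real.cos x) / x ^ 2 := by
  unfold fk
  have h : ∀ ξ ∈ Set.uIcc (0 : ℝ) 1, HasDerivAt
      (fun ξ : ℝ => (1 - ξ) * Real.sin (ξ * x) / x - Real.cos (ξ * x) / x ^ 2)
      ((1 - ξ) * Real.cos (ξ * x)) ξ := by
    intro ξ _
    have h1 : HasDerivAt (fun ξ : ℝ => ξ * x) x ξ := by
      simpa using (hasDerivAt_id ξ).mul_const x
    have h2 : HasDerivAt (fun ξ : ℝ => 1 - ξ) (-1) ξ := by
      simpa using (hasDerivAt_id ξ).const_sub 1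
    have h3 := (h2.mul h1.sin).div_const x
    have h4 := h1.cos.div_const (x ^ 2)
    have h5 : ((-1) * Real.sin (ξ * x) + (1 - ξ) * (Real.cos (ξ * x) * x)) / x -
        (-Real.sin (ξ * x) * x) / x ^ 2 = (1 - ξ) * Real.cos (ξ * x) := by
      field_simp
      ring
    rw [← h5]
    exact h3.sub h4
  rw [intervalIntegral.integral_eq_sub_of_hasDerivAt h
    ((by fun_prop : Continuous fun ξ : ℝ => (1 - ξ) * Real.cos (ξ * x)).intervalIntegrable _ _)]
  simp
  ring

theorem fk_nonneg (x : ℝ) : 0 ≤ fk x := by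
  by_cases hx : x = 0
  · subst hx
    unfold fk
    refine intervalIntegral.integral_nonneg zero_le_one fun ξ hξ => ?_
    simp only [mul_zero, Real.cos_zero, mul_one]
    linarith [hξ.2]
  · rw [fk_formula x hx]
    exact div_nonneg (by linarith [Real.cos_le_one x]) (sq_nonneg _)

theorem fk_low (x : ℝ) (hx : |x| ≤ 1) : 1 / 4 ≤ fk x := by
  have h1 : ∫ ξ in (0 : ℝ)..1, (1 - ξ) * (1 / 2) = 1 / 4 := by
    rw [intervalIntegral.integral_mul_const, intervalIntegral.integral_sub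
      (by simp) (by simp)]
    simp
    norm_num
  rw [← h1]
  unfold fk
  refine intervalIntegral.integral_mono_on zero_le_one
    ((by fun_prop : Continuous fun ξ : ℝ => (1 - ξ) * (1 / 2)).intervalIntegrable _ _)
    ((by fun_prop : Continuous fun ξ : ℝ => (1 - ξ) * Real.cos (ξ * x)).intervalIntegrable _ _)
    fun ξ hξ => ?_
  refine mul_le_mul_of_nonneg_left ?_ (by linarith [hξ.2])
  have h2 := Real.one_sub_sq_div_two_le_cos (x := ξ * x)
  have h3 : (ξ * x) ^ 2 ≤ 1 := by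
    rw [mul_pow]
    have h4 : x ^ 2 ≤ 1 := by
      rw [← sq_abs]
      exact pow_le_one₀ (abs_nonneg _) hx
    have h5 : ξ ^ 2 ≤ 1 := pow_le_one₀ hξ.1 hξ.2
    calc ξ ^ 2 * x ^ 2 ≤ 1 * 1 := mul_le_mul h5 h4 (sq_nonneg _) zero_le_one
      _ = 1 := one_mul 1
  linarith

theorem gauss_half (c : ℝ) (hc : 0 < c) :
    ∫ ξ in (0 : ℝ)..1, Real.exp (-(c * ξ ^ 2)) ≤ 1 / Real.sqrt c := by
  have h1 : ∫ ξ in (0 : ℝ)..1, Real.exp (-(c * ξ ^ 2)) ≤
      ∫ ξ in Set.Ioi (0 : ℝ), Real.exp (-c * ξ ^ 2) := by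
    rw [intervalIntegral.integral_of_le zero_le_one]
    have h2 : (fun ξ : ℝ => Real.exp (-(c * ξ ^ 2))) = fun ξ : ℝ => Real.exp (-c * ξ ^ 2) := by
      funext ξ
      rw [neg_mul]
    rw [h2]
    refine setIntegral_mono_set (integrable_exp_neg_mul_sq hc).integrableOn ?_ ?_
    · exact Eventually.of_forall fun ξ => (Real.exp_pos _).le
    · exact (Set.Ioc_subset_Ioi_self : Set.Ioc (0 : ℝ) 1 ⊆ Set.Ioi 0).eventuallyLE
  refine h1.trans ?_
  rw [integral_gaussian_Ioi, Real.sqrt_div Real.pi_pos.le]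
  have hs : 0 < Real.sqrt c := Real.sqrt_pos.2 hc
  rw [div_div, div_le_div_iff₀ (by positivity) hs]
  have h3 : Real.sqrt Real.pi ≤ 2 := by
    rw [Real.sqrt_le_left (by norm_num)]
    linarith [Real.pi_le_four]
  nlinarith

theorem fej1 (p q K G₁ G₂ c V : ℝ) (w Z : ℝ → ℝ) (hpq : p ≤ q) (hK : 0 < K) (hG1 : 0 ≤ G₁)
    (hG2 : 0 ≤ G₂) (hc : 0 < c) (hw : Continuous w) (hZ : Continuous Z)
    (hw0 : ∀ t ∈ Set.Icc p q, 0 ≤ w t)
    (hb : ∀ ξ : ℝ, |ξ| ≤ 1 → ‖∫ t in p..q, (w t : ℂ) * cexp (I * ((ξ * Z t / K : ℝ) : ℂ))‖ ≤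
      G₁ + G₂ * Real.exp (-(c * ξ ^ 2))) :
    ∫ t in {t : ℝ | t ∈ Set.Icc p q ∧ |Z t - V| ≤ K}, w t ≤ 8 * (G₁ + G₂ / Real.sqrt c) := by
  set A : Set ℝ := {t : ℝ | t ∈ Set.Icc p q ∧ |Z t - V| ≤ K} with hA
  have hZV : Continuous fun t => |Z t - V| := (hZ.sub continuous_const).abs
  have hAcl : IsClosed A := isClosed_Icc.inter (isClosed_le hZV continuous_const)
  have hAsub : A ⊆ Set.Icc p q := fun t ht => ht.1
  have hfkc : Continuous fun t => fk ((Z t - V) / K) := fk_cont.comp (by fun_prop)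
  have hwk : Continuous fun t => w t * fk ((Z t - V) / K) := hw.mul hfkc
  have hwI : IntegrableOn w (Set.Icc p q) := hw.continuousOn.integrableOn_Icc
  have hwkI : IntegrableOn (fun t => w t * fk ((Z t - V) / K)) (Set.Icc p q) :=
    hwk.continuousOn.integrableOn_Icc
  -- step 1
  have s1 : ∫ t in A, w t ≤ ∫ t in A, 4 * (w t * fk ((Z t - V) / K)) := by
    refine setIntegral_mono_on (hwI.mono_set hAsub) ((hwkI.mono_set hAsub).const_mul 4)
      hAcl.measurableSet fun t ht => ?_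
    have h1 : |(Z t - V) / K| ≤ 1 := by
      rw [abs_div, abs_of_pos hK, div_le_one hK]
      exact ht.2
    have h2 := fk_low _ h1
    have h3 := hw0 t ht.1
    nlinarith
  have s2 : ∫ t in A, 4 * (w t * fk ((Z t - V) / K)) ≤
      ∫ t in Set.Icc p q, 4 * (w t * fk ((Z t - V) / K)) := by
    refine setIntegral_mono_set (hwkI.const_mul 4) ?_ hAsub.eventuallyLE
    rw [EventuallyLE, ae_restrict_iff' measurableSet_Icc]
    refine Eventually.of_forall fun t ht => ?_
    have h1 := mul_nonneg (hw0 t ht) (fk_nonneg ((Z t - V) / K))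
    simp only [Pi.zero_apply]
    linarith
  have s3 : ∫ t in Set.Icc p q, 4 * (w t * fk ((Z t - V) / K)) =
      4 * ∫ t in p..q, w t * fk ((Z t - V) / K) := by
    rw [integral_const_mul, integral_Icc_eq_integral_Ioc, intervalIntegral.integral_of_le hpq]
  -- step 2, Fubini
  have s4 : ∫ t in p..q, w t * fk ((Z t - V) / K) =
      ∫ ξ in (0 : ℝ)..1, (1 - ξ) * ∫ t in p..q, w t * Real.cos (ξ * ((Z t - V) / K)) := by
    have h1 : ∀ t, w t * fk ((Z t - V) / K) =
        ∫ ξ in (0 : ℝ)..1, (1 - ξ) * (w t * Real.cos (ξ * ((Z t - V) / K))) := by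
      intro t
      unfold fk
      rw [← intervalIntegral.integral_const_mul]
      refine intervalIntegral.integral_congr fun ξ _ => ?_
      ring
    have h2 : ∀ ξ : ℝ, (1 - ξ) * (∫ t in p..q, w t * Real.cos (ξ * ((Z t - V) / K))) =
        ∫ t in p..q, (1 - ξ) * (w t * Real.cos (ξ * ((Z t - V) / K))) := by
      intro ξ
      rw [intervalIntegral.integral_const_mul]
    simp only [h1, h2]
    refine intervalIntegral_intervalIntegral_swap ?_
    have h3 : Continuous (Function.uncurry fun (t ξ : ℝ) =>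
        (1 - ξ) * (w t * Real.cos (ξ * ((Z t - V) / K)))) := by
      unfold Function.uncurry
      fun_prop
    refine (h3.continuousOn.integrableOn_compact
      (isCompact_uIcc.prod isCompact_uIcc)).mono_set
      (Set.prod_mono Set.uIoc_subset_uIcc Set.uIoc_subset_uIcc)
  -- step 3
  have s5 : ∀ ξ ∈ Set.Icc (0 : ℝ) 1, ∫ t in p..q, w t * Real.cos (ξ * ((Z t - V) / K)) ≤
      G₁ + G₂ * Real.exp (-(c * ξ ^ 2)) := by
    intro ξ hξ
    have hξ1 : |ξ| ≤ 1 := by
      rw [abs_of_nonneg hξ.1]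
      exact hξ.2
    have h1 : ∫ t in p..q, w t * Real.cos (ξ * ((Z t - V) / K)) =
        (cexp (I * ((-(ξ * V / K) : ℝ) : ℂ)) *
          ∫ t in p..q, (w t : ℂ) * cexp (I * ((ξ * Z t / K : ℝ) : ℂ))).re := by
      rw [← intervalIntegral.integral_const_mul]
      have h2 := Complex.reCLM.intervalIntegral_comp_comm (μ := volume) (a := p) (b := q)
        (f := fun t => cexp (I * ((-(ξ * V / K) : ℝ) : ℂ)) *
          ((w t : ℂ) * cexp (I * ((ξ * Z t / K : ℝ) : ℂ))))
        ((by fun_prop : Continuous fun t => cexp (I * ((-(ξ * V / K) : ℝ) : ℂ)) *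
          ((w t : ℂ) * cexp (I * ((ξ * Z t / K : ℝ) : ℂ)))).intervalIntegrable _ _)
      simp only [Complex.reCLM_apply] at h2
      rw [← h2]
      refine intervalIntegral.integral_congr fun t _ => ?_
      have h3 : cexp (I * ((-(ξ * V / K) : ℝ) : ℂ)) *
          ((w t : ℂ) * cexp (I * ((ξ * Z t / K : ℝ) : ℂ))) =
          (w t : ℂ) * cexp (((ξ * ((Z t - V) / K) : ℝ) : ℂ) * I) := by
        rw [mul_left_comm, ← Complex.exp_add]
        congr 2
        push_cast
        ring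
      change w t * Real.cos (ξ * ((Z t - V) / K)) = (cexp (I * ((-(ξ * V / K) : ℝ) : ℂ)) *
          ((w t : ℂ) * cexp (I * ((ξ * Z t / K : ℝ) : ℂ)))).re
      rw [h3, Complex.re_ofReal_mul, Complex.exp_ofReal_mul_I_re]
    rw [h1]
    refine (Complex.re_le_norm _).trans ?_
    rw [norm_mul, mul_comm I, Complex.norm_exp_ofReal_mul_I, one_mul]
    exact hb ξ hξ1
  have s6 : ∫ ξ in (0 : ℝ)..1, (1 - ξ) * ∫ t in p..q, w t * Real.cos (ξ * ((Z t - V) / K)) ≤
      ∫ ξ in (0 : ℝ)..1, (G₁ + G₂ * Real.exp (-(c * ξ ^ 2))) := by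
    have hcI : Continuous fun ξ : ℝ => ∫ t in p..q, w t * Real.cos (ξ * ((Z t - V) / K)) :=
      intervalIntegral.continuous_parametric_intervalIntegral_of_continuous' (by fun_prop) _ _
    refine intervalIntegral.integral_mono_on zero_le_one
      ((by fun_prop : Continuous fun ξ : ℝ =>
        (1 - ξ) * ∫ t in p..q, w t * Real.cos (ξ * ((Z t - V) / K))).intervalIntegrable _ _)
      ((by fun_prop : Continuous fun ξ : ℝ =>
        (G₁ + G₂ * Real.exp (-(c * ξ ^ 2)))).intervalIntegrable _ _) fun ξ hξ => ?_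
    have h1 := s5 ξ hξ
    have h2 : 0 ≤ G₁ + G₂ * Real.exp (-(c * ξ ^ 2)) := by positivity
    calc (1 - ξ) * ∫ t in p..q, w t * Real.cos (ξ * ((Z t - V) / K))
        ≤ (1 - ξ) * (G₁ + G₂ * Real.exp (-(c * ξ ^ 2))) :=
          mul_le_mul_of_nonneg_left h1 (by linarith [hξ.2])
      _ ≤ 1 * (G₁ + G₂ * Real.exp (-(c * ξ ^ 2))) :=
          mul_le_mul_of_nonneg_right (by linarith [hξ.1]) h2
      _ = _ := one_mul _
  have s7 : ∫ ξ in (0 : ℝ)..1, (G₁ + G₂ * Real.exp (-(c * ξ ^ 2))) ≤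
      G₁ + G₂ / Real.sqrt c := by
    rw [intervalIntegral.integral_add (by simp)
      ((by fun_prop : Continuous fun ξ : ℝ =>
        (G₂ * Real.exp (-(c * ξ ^ 2)))).intervalIntegrable _ _),
      intervalIntegral.integral_const_mul]
    have h1 := mul_le_mul_of_nonneg_left (gauss_half c hc) hG2
    simp only [intervalIntegral.integral_const, sub_zero, smul_eq_mul, one_mul]
    rw [div_eq_mul_one_div G₂]
    linarith
  have s8 : 0 ≤ G₁ + G₂ / Real.sqrt c := by positivity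
  rw [s3] at s2
  linarith

end

end Pool.Agent.Run7.h160.UC
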