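import Pool.Agent.Run7.h74.UC.Iface
import Pool.Agent.Run7.h160.UC.FEJ1core

/-!
# Piece FEJ1 of the project UC (helper74)
-/

set_option autoImplicit false

namespace Pool.Agent.Run7.h160.UC

open Pool.Agent.Run7.h74.UC

theorem t_FEJ1 : S_FEJ1 := fej1

end Pool.Agent.Run7.h160.UC
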